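import Mathlib

set_option autoImplicit false

namespace Pool.Agent.Results.MP_417677_al.Counterexample

open CoxeterMatrix
open scoped commutatorElement

/-- The Coxeter diagram; Mathlib writes `m = ∞` as `0`. -/
def diagram {B : Type} (M : CoxeterMatrix B) : SimpleGraph B where
  Adj s t := s ≠ t ∧ (3 ≤ M s t ∨ M s t = 0)
  symm := ⟨fun s t h => ⟨h.1.symm, by rw [M.symmetric]; exact h.2⟩⟩
  loopless := ⟨fun _ h => h.1 rfl⟩

abbrev cs := H₃.toCoxeterSystem

def rel : ℕ → List (Fin 3) × List (Fin 3)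
  | 0 => ([0, 0], [])
  | 1 => ([1, 1], [])
  | 2 => ([2, 2], [])
  | 3 => ([0, 1, 0], [1, 0, 1])
  | 4 => ([1, 0, 1], [0, 1, 0])
  | 5 => ([0, 2], [2, 0])
  | 6 => ([2, 0], [0, 2])
  | 7 => ([1, 2, 1, 2, 1], [2, 1, 2, 1, 2])
  | _ => ([2, 1, 2, 1, 2], [1, 2, 1, 2, 1])

lemma rel_eq : ∀ k, cs.wordProd (rel k).1 = cs.wordProd (rel k).2
  | 0 => by simp [rel, cs.wordProd_cons, -toCoxeterSystem_simple]
  | 1 => by simp [rel, cs.wordProd_cons, -toCoxeterSystem_simple]
  | 2 => by simp [rel, cs.wordProd_cons, -toCoxeterSystem_simple]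
  | 3 => cs.wordProd_braidWord_eq 1 0
  | 4 => cs.wordProd_braidWord_eq 0 1
  | 5 => cs.wordProd_braidWord_eq 0 2
  | 6 => cs.wordProd_braidWord_eq 2 0
  | 7 => cs.wordProd_braidWord_eq 2 1
  | _ + 8 => cs.wordProd_braidWord_eq 1 2

def step (w : List (Fin 3)) (s : ℕ × ℕ) : List (Fin 3) :=
  if w = w.take s.1 ++ (rel s.2).1 ++ w.drop (s.1 + (rel s.2).1.length) then
    w.take s.1 ++ (rel s.2).2 ++ w.drop (s.1 + (rel s.2).1.length) else w

lemma steps (l : List (ℕ × ℕ)) (w : List (Fin 3)) (h : l.foldl step w = []) :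
    cs.wordProd w = 1 := by
  induction l generalizing w with
  | nil => rw [show w = [] from h, cs.wordProd_nil]
  | cons s l ih =>
    rw [← ih _ h, step]
    split_ifs with e
    · rw [cs.wordProd_append, cs.wordProd_append, ← rel_eq, ← cs.wordProd_append,
        ← cs.wordProd_append, ← e]
    rfl

def zw : List (Fin 3) := [0, 1, 2, 0, 1, 2, 0, 1, 2, 0, 1, 2, 0, 1, 2]

/-- The longest element. -/
abbrev z : H₃.Group := cs.wordProd zw

lemma zz : z * z = 1 := (cs.wordProd_append _ _).symm.trans (steps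
      [(2, 6), (0, 3), (8, 6), (6, 3), (14, 6), (12, 3), (2, 7), (6, 6), (8, 7), (7, 2), (5,
      4), (1, 5), (7, 5), (4, 6), (2, 3), (10, 6), (8, 3), (4, 7), (8, 6), (10, 7), (9, 2),
      (12, 2), (7, 4), (3, 5), (9, 5), (10, 3), (6, 6), (4, 3), (0, 7), (4, 6), (6, 7), (5,
      2), (10, 1), (9, 5), (8, 2), (8, 0), (7, 1), (6, 2), (4, 3), (3, 1), (4, 1), (3, 5), (2,
      2), (2, 0), (1, 1), (0, 2)]
    _ (by decide +kernel))

lemma z_comm (w : H₃.Group) : Commute w z := by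
  have (i : Fin 3) : cs.wordProd (i :: (zw ++ i :: zw)) = 1 := by
    fin_cases i
    · exact steps [(0, 0), (14, 0), (4, 6), (2, 3), (10, 6), (8, 3), (4, 7), (8, 6), (10, 7), (9, 2), (12,
      2), (7, 4), (3, 5), (9, 5), (10, 3), (6, 6), (4, 3), (0, 7), (4, 6), (6, 7), (5, 2),
      (10, 1), (9, 5), (8, 2), (8, 0), (7, 1), (6, 2), (4, 3), (3, 1), (4, 1), (3, 5), (2, 2),
      (2, 0), (1, 1), (0, 2)] _ (by decide +kernel)
    · exact steps [(0, 4), (2, 5), (3, 0), (7, 6), (5, 3), (1, 7), (0, 5), (5, 6), (6, 8), (4, 4), (10,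
      4), (6, 5), (12, 5), (13, 3), (3, 6), (1, 3), (9, 6), (7, 3), (3, 7), (7, 6), (9, 7),
      (8, 2), (13, 1), (12, 5), (11, 2), (11, 0), (10, 1), (9, 2), (7, 3), (6, 1), (7, 1), (6,
      5), (5, 2), (5, 0), (4, 1), (3, 2), (2, 0), (1, 1), (0, 2)] _ (by decide +kernel)
    exact steps [(0, 6), (6, 6), (4, 3), (12, 6), (10, 3), (6, 7), (5, 5), (10, 6), (1, 8), (5, 4), (7,
      5), (8, 3), (10, 7), (14, 2), (9, 5), (4, 6), (14, 6), (5, 8), (3, 4), (9, 4), (5, 5),
      (11, 5), (12, 3), (2, 6), (0, 3), (8, 6), (6, 3), (2, 7), (6, 6), (8, 7), (7, 2), (5,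
      4), (1, 5), (7, 5), (4, 6), (2, 3), (10, 6), (8, 3), (4, 7), (8, 6), (10, 7), (9, 2),
      (12, 2), (7, 4), (3, 5), (9, 5), (10, 3), (6, 6), (4, 3), (0, 7), (4, 6), (6, 7), (5,
      2), (10, 1), (9, 5), (8, 2), (8, 0), (7, 1), (6, 2), (4, 3), (3, 1), (4, 1), (3, 5), (2,
      2), (2, 0), (1, 1), (0, 2)] _ (by decide +kernel)
  refine cs.simple_induction (p := (Commute · z)) w (fun i => ?_) (Commute.one_left _) fun _ _ => Commute.mul_left
  have h := this i
  rw [cs.wordProd_cons, cs.wordProd_append, cs.wordProd_cons, ← mul_assoc] at h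
  rw [Commute, SemiconjBy, eq_inv_of_mul_eq_one_left h, mul_inv_rev, cs.inv_simple,
    inv_eq_of_mul_eq_one_left zz]

instance : (Subgroup.zpowers z).Normal :=
  ⟨fun _ ⟨k, hk⟩ g => by rw [← hk, ((z_comm g).zpow_right k).eq]; simp⟩

/-- The sign, with values in the centre of the dihedral group of order 8. -/
def sgn : H₃.Group →* DihedralGroup 4 := cs.lift ⟨fun _ => .r 2, by unfold IsLiftable; decide⟩

lemma sgn_simple (i : Fin 3) : sgn (cs.simple i) = .r 2 := cs.lift_apply_simple _ i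

lemma sgn_z : sgn z = .r 2 := by
  simp only [z, zw, cs.wordProd_cons, cs.wordProd_nil, map_mul, map_one, sgn_simple]
  decide

lemma sgn_cases (w : H₃.Group) : sgn w = 1 ∨ sgn w = .r 2 :=
  cs.simple_induction (p := fun w => sgn w = 1 ∨ sgn w = .r 2) w (fun i => .inr (sgn_simple i))
    (.inl (map_one _)) fun a b ha hb => by
    rw [map_mul]
    rcases ha with ha | ha <;> rcases hb with hb | hb <;> rw [ha, hb] <;> decide

lemma comm_D (d : DihedralGroup 4) : d ∈ commutator (DihedralGroup 4) ↔ d = 1 ∨ d = .r 2 := by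
  refine ⟨fun h => ?_, ?_⟩
  · refine Subgroup.closure_induction (fun _ ⟨a, _, b, _, e⟩ => e ▸ ?_) (.inl rfl)
      (fun _ _ _ _ ha hb => ?_) (fun _ _ ha => ?_) h
    · exact (by decide : ∀ a b : DihedralGroup 4, a * b * a⁻¹ * b⁻¹ = 1 ∨ a * b * a⁻¹ * b⁻¹ = .r 2) a b
    · rcases ha with ha | ha <;> rcases hb with hb | hb <;> rw [ha, hb] <;> decide
    rcases ha with ha | ha <;> rw [ha] <;> decide
  rintro (rfl | rfl)
  · exact one_mem _
  exact (show ⁅DihedralGroup.r (1 : ZMod 4), DihedralGroup.sr (0 : ZMod 4)⁆ = DihedralGroup.r 2 by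
      rw [commutatorElement_def]; decide) ▸
    Subgroup.commutator_mem_commutator trivial trivial

lemma triv {A : Type} [CommGroup A] (f : H₃.Group →* A) (h1 : f z = 1) (w : H₃.Group) :
    f w = 1 := by
  have h2 := congrArg f (rel_eq 0)
  have h3 := congrArg f (rel_eq 3)
  have h4 := congrArg f (rel_eq 7)
  simp only [z, zw, rel, cs.wordProd_cons, cs.wordProd_nil, mul_one, map_mul,
    map_one] at h1 h2 h3 h4
  have h5 : f (cs.simple 0) = f (cs.simple 1) := (fun a b h => mul_left_cancel (a := a * b)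
    (by simpa [mul_comm, mul_left_comm, mul_assoc] using h) :
      ∀ a b : A, a * (b * a) = b * (a * b) → a = b) _ _ h3
  have h6 : f (cs.simple 1) = f (cs.simple 2) := (fun a b h => mul_left_cancel (a := a * a * b * b)
    (by simpa [mul_comm, mul_left_comm, mul_assoc] using h) :
      ∀ a b : A, a * (b * (a * (b * a))) = b * (a * (b * (a * b))) → a = b) _ _ h4
  rw [← h6, ← h5] at h1
  simp only [← mul_assoc, h2, one_mul, mul_one] at h1
  refine cs.simple_induction (p := fun w => f w = 1) w (fun i => ?_) (map_one _)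
    fun a b ha hb => by rw [map_mul, ha, hb, one_mul]
  fin_cases i
  exacts [h1, h5 ▸ h1, h6 ▸ h5 ▸ h1]

lemma perfect : commutator (H₃.Group ⧸ Subgroup.zpowers z) = ⊤ := by
  refine top_unique fun x _ => ?_
  obtain ⟨w, rfl⟩ := QuotientGroup.mk'_surjective _ x
  rw [← Abelianization.ker_of]
  exact triv (Abelianization.of.comp (QuotientGroup.mk' (Subgroup.zpowers z)))
    (by simp [(QuotientGroup.eq_one_iff _).mpr (Subgroup.mem_zpowers z)]) w

/-- The Coxeter group of type `H₃` has connected diagram, is not `C₂`, and is integrable. -/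
theorem result : (diagram H₃).Connected ∧ IsEmpty (H₃.Group ≃* Multiplicative (ZMod 2)) ∧
    ∃ (H : Type) (_ : Group H), Nonempty (commutator H ≃* H₃.Group) := by
  refine ⟨?_, ⟨fun e => ?_⟩, (H₃.Group ⧸ Subgroup.zpowers z) × DihedralGroup 4, inferInstance, ?_⟩
  · have : DecidableRel (diagram H₃).Adj := fun s t => by unfold diagram; infer_instance
    rw [SimpleGraph.connected_iff_exists_forall_reachable]
    refine ⟨1, fun t => ?_⟩
    fin_cases t
    exacts [SimpleGraph.Adj.reachable ⟨by decide, by decide⟩, .refl _,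
      SimpleGraph.Adj.reachable ⟨by decide, by decide⟩]
  · let g : H₃.Group →* Equiv.Perm (Fin 5) := cs.lift ⟨![.swap 1 2 * .swap 3 4,
      .swap 0 1 * .swap 3 4, .swap 1 3 * .swap 2 4], by unfold IsLiftable; decide⟩
    have := congrArg g (e.injective (a₁ := cs.simple 0 * cs.simple 1)
      (a₂ := cs.simple 1 * cs.simple 0) (by rw [map_mul, map_mul, mul_comm]))
    simp only [map_mul, g, cs.lift_apply_simple] at this
    revert this
    decide
  let φ := (QuotientGroup.mk' (Subgroup.zpowers z)).prod sgn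
  have h1 : Function.Injective φ := (injective_iff_map_eq_one φ).mpr fun w h => by
    obtain ⟨k, rfl⟩ := (QuotientGroup.eq_one_iff _).mp (congrArg Prod.fst h)
    have h2 : sgn (z ^ k) = 1 := congrArg Prod.snd h
    have h3 : z ^ (2 : ℤ) = 1 := by rw [zpow_two, zz]
    obtain ⟨j, rfl | rfl⟩ := Int.even_or_odd' k
    · simp [zpow_mul, h3]
    rw [zpow_add, zpow_mul, h3, one_zpow, one_mul, zpow_one, sgn_z] at h2
    exact absurd h2 (by decide)
  refine ⟨(MulEquiv.subgroupCongr ?_).trans (MonoidHom.ofInjective h1).symm⟩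
  rw [commutator_def, ← Subgroup.top_prod_top, Subgroup.commutator_prod_prod, ← commutator_def,
    ← commutator_def, perfect]
  ext ⟨x, d⟩
  refine ⟨fun h => ?_, fun ⟨w, e⟩ => e ▸ ⟨trivial, (comm_D _).mpr (sgn_cases w)⟩⟩
  obtain ⟨w, rfl⟩ := QuotientGroup.mk'_surjective _ x
  by_cases e : sgn w = d
  · exact ⟨w, Prod.ext rfl e⟩
  refine ⟨w * z, Prod.ext (by simp [φ]) ?_⟩
  change sgn (w * z) = d
  rw [map_mul, sgn_z]
  rcases (comm_D d).mp h.2 with rfl | rfl <;> rcases sgn_cases w with h | h <;> simp_all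
  decide

end Pool.Agent.Results.MP_417677_al.Counterexample
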